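import Pool.Agent.MP_90aa3f_co.H64.Morph

set_option autoImplicit false

open Pool.Agent.MP_90aa3f_co.H64

namespace Pool.Agent.Results.MP_90aa3f_co.ZeroDefect

/-- A fixed point of a primitive marked morphism with finite palindromic defect has defect zero. -/
theorem result (A : Type) [Fintype A] (φ : A → List A) (u : ℕ → A) (hp : Primitive φ)
    (hm : Marked φ) (hf : IsFixedPoint φ u)
    (hfin : BddAbove (defect '' {w : List A | IsFactor u w})) :
    ∀ w : List A, IsFactor u w → defect w = 0 :=
  main φ u hp hm hf hfin

end Pool.Agent.Results.MP_90aa3f_co.ZeroDefect
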